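import Pool.Agent.Helper61.MM.Wall
import Pool.Agent.Helper61.MM.Tog2
import Pool.Agent.Helper63.MS.Act

set_option autoImplicit false

/-!
# META-BAR, `no_switch`: far away the toggled state is not the other state
-/

namespace Pool.Agent.Helper61.MM

open MeasureTheory ProbabilityTheory Filter Topology Pool.Agent.Helper60.TJ
open scoped symmDiff

namespace NoSw

variable {lam : Measure ℝ} {κ : Kernel WT Rs} {R : Measure Om} {ω : Env} {s s' : Vl}

theorem wt_ww (h : Ok ω s) (g : Gm) : wt (ww g ω) = ww g ω := by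
  funext e
  exact abs_of_pos (h.wpos g e)

/-- the energy of the toggle of `x` and `x'` is at most `2M + 2K - |V|` -/
theorem core (h : Ok ω s) (_h : Ok ω s') (g : Gm) {D P : Finset Ed} {x x' u : Vx}
    (hP : par (ind P) = vx (dl x) (dl x')) {M K : ℝ} {r Lb Ls : ℕ}
    (hx : Nr M r x (ww g ω, uu s g, uu s' g)) (hx' : Nr M r x' (ww g ω, uu s g, uu s' g))
    (hK : tw (ww g ω) D ≤ K)
    (hseg : Sgm Lb Ls (shX u (ww g ω, uu s g, uu s' g)))
    (hxb : ∀ a ∈ box r, x + a - u ∈ box Lb) (hxb' : ∀ a ∈ box r, x' + a - u ∈ box Lb)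
    (hag : ∀ e : Ed, e.1 - u ∈ box Ls → uu s (tg g D) e = uu s' g e) :
    ∃ v v' : Vx, v - x ∈ box r ∧ v' - x' ∈ box r ∧ OnW (bx (uu s g) (uu s' g)) v ∧
      OnW (bx (uu s g) (uu s' g)) v' ∧ ∃ X : Finset Ed, (∀ e ∈ X, bx (uu s g) (uu s' g) e = true) ∧
        par (ind X) = vx (dl v) (dl v') ∧
          hh s g P ≤ 2 * M + 2 * K - |en (ww g ω) (uu s g) X| := by
  classical
  obtain ⟨v, hv1, hv2, X1, hX1, hM1⟩ := hx
  obtain ⟨v', hv1', hv2', X2, hX2, hM2⟩ := hx'
  simp only [wt_ww h] at hM1 hM2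
  have hw0 : ∀ e, 0 ≤ ww g ω e := fun e => (h.wpos g e).le
  -- the segment
  have hvb : v - u ∈ box Lb := by
    have := hxb _ hv1
    rwa [add_sub_cancel] at this
  have hvb' : v' - u ∈ box Lb := by
    have := hxb' _ hv1'
    rwa [add_sub_cancel] at this
  have hsh : ∀ y : Vx, OnW (wl ((ww g ω, uu s g, uu s' g) : XX)) y →
      OnW (wl (shX u ((ww g ω, uu s g, uu s' g) : XX))) (y - u) := by
    rintro y ⟨d, hd⟩
    refine ⟨d, ?_⟩
    rw [wl_shX, sh_edg, sub_add_cancel]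
    exact hd
  obtain ⟨X', hX'1, hX'2⟩ := hseg _ hvb _ hvb' (hsh v hv2) (hsh v' hv2')
  set X : Finset Ed := shF (-u) X' with hXdef
  have hXm : ∀ e ∈ X, bx (uu s g) (uu s' g) e = true ∧ e.1 - u ∈ box Ls := by
    intro e he
    rw [hXdef, mem_shF] at he
    have h1 := hX'1 _ he
    rw [wl_shX] at h1
    unfold sh at h1
    simp only [neg_add_cancel_right] at h1
    refine ⟨h1.1, ?_⟩
    rw [sub_eq_add_neg]
    exact h1.2
  have hXp : par (ind X) = vx (dl v) (dl v') := by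
    funext y
    rw [hXdef, ind_shF, par_sh, hX'2]
    unfold vx dl
    congr 1
    · rw [decide_eq_decide]
      constructor
      · intro h2
        rw [← sub_eq_add_neg] at h2
        exact sub_left_injective h2
      · rintro rfl
        rw [sub_eq_add_neg]
    · rw [decide_eq_decide]
      constructor
      · intro h2
        rw [← sub_eq_add_neg] at h2
        exact sub_left_injective h2
      · rintro rfl
        rw [sub_eq_add_neg]
  have hpar : par (ind ((X ∆ X1) ∆ X2)) = par (ind P) := by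
    rw [par_ind_symmDiff, par_ind_symmDiff, hXp, hX1, hX2, hP]
    funext y
    unfold vx
    generalize dl v y = a
    generalize dl v' y = b
    generalize dl x y = c
    generalize dl x' y = d
    cases a <;> cases b <;> cases c <;> cases d <;> rfl
  have hup : ∀ U : Ed → Bool, en (ww g ω) U ((X ∆ X1) ∆ X2) ≤ en (ww g ω) U X + 2 * M := by
    intro U
    have h1 := en_symmDiff_le hw0 U (X ∆ X1) X2
    have h2 := en_symmDiff_le hw0 U X X1
    linarith
  have e1 : hh s g P ≤ en (ww g ω) (uu s g) X + 2 * M :=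
    (h.le g P _ hpar).trans (hup _)
  have e2 : hh s (tg g D) P ≤ en (ww g ω) (uu s (tg g D)) X + 2 * M :=
    (h.le (tg g D) P _ hpar).trans (hup _)
  have e3 : en (ww g ω) (uu s (tg g D)) X = - en (ww g ω) (uu s g) X := by
    rw [← en_wall fun e he => (hXm e he).1]
    exact en_congr fun e he => hag e (hXm e he).2
  have e4 := h.far g D P
  have e5 := abs_le.1 e4
  have hK0 : 0 ≤ K := (tw_nonneg hw0 D).trans hK
  refine ⟨v, v', hv1, hv1', hv2, hv2', X, fun e he => (hXm e he).1, hXp, ?_⟩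
  rcases abs_cases (en (ww g ω) (uu s g) X) with ⟨h6, -⟩ | ⟨h6, -⟩
  · rw [h6]
    linarith [e5.1]
  · rw [h6]
    linarith

/-- close heights, if the toggled state looks like the other state for both base points -/
theorem key (h : Ok ω s) (h' : Ok ω s') (g : Gm) {D P : Finset Ed} {x x' u : Vx}
    (hP : par (ind P) = vx (dl x) (dl x')) {M K : ℝ} {r Lb Ls : ℕ}
    (hx : Nr M r x (ww g ω, uu s g, uu s' g)) (hx' : Nr M r x' (ww g ω, uu s g, uu s' g))
    (hseg : Sgm Lb Ls (shX u (ww g ω, uu s g, uu s' g)))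
    (hag : ∀ e : Ed, e.1 - u ∈ box Ls → uu s (tg g D) e = uu s' g e)
    (hy : Nr M r x (ww (tg g P) ω, uu s (tg g P), uu s' (tg g P)))
    (hy' : Nr M r x' (ww (tg g P) ω, uu s (tg g P), uu s' (tg g P)))
    (hseg' : Sgm Lb Ls (shX u (ww (tg g P) ω, uu s (tg g P), uu s' (tg g P))))
    (hag' : ∀ e : Ed, e.1 - u ∈ box Ls → uu s (tg (tg g P) D) e = uu s' (tg g P) e)
    (hK : tw (ww g ω) D ≤ K)
    (hxb : ∀ a ∈ box r, x + a - u ∈ box Lb) (hxb' : ∀ a ∈ box r, x' + a - u ∈ box Lb) :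
    ∃ a ∈ box r, ∃ a' ∈ box r,
      Cl (4 * M + 4 * K) (x + a) (x' + a') (ww g ω, uu s g, uu s' g) := by
  obtain ⟨v, v', h1, h2, h3, h4, X, h5, h6, h7⟩ := core h h' g hP hx hx' hK hseg hxb hxb' hag
  obtain ⟨-, -, -, -, -, -, X1, -, -, h8⟩ :=
    core h h' (tg g P) hP hy hy' (show tw (ww (tg g P) ω) D ≤ K from hK) hseg' hxb hxb' hag'
  rw [h.dual g P] at h8
  refine ⟨v - x, h1, v' - x', h2, ?_⟩
  rw [add_sub_cancel, add_sub_cancel]
  refine ⟨h3, h4, X, h5, h6, ?_⟩
  have h9 := abs_nonneg (en (ww (tg g P) ω) (uu s (tg g P)) X1)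
  show |en (wt (ww g ω)) (uu s g) X| ≤ _
  rw [wt_ww h]
  linarith

/-! ### probability -/

theorem exists_K [IsFiniteMeasure R] {f : Om → ℝ} (hf : Measurable f) {ε : ENNReal}
    (hε : 0 < ε) : ∃ K : ℝ, R {z | K < f z} ≤ ε := by
  have h1 : Tendsto (fun n : ℕ => R {z | (n : ℝ) < f z}) atTop (𝓝 (R (⋂ n : ℕ, {z | (n : ℝ) < f z}))) := by
    refine tendsto_measure_iInter_atTop (fun n => (measurableSet_lt measurable_const hf).nullMeasurableSet)
      ?_ ⟨0, measure_ne_top _ _⟩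
    intro m n hmn z hz
    simp only [Set.mem_ofPred_eq] at hz ⊢
    have : (m : ℝ) ≤ n := by exact_mod_cast hmn
    linarith
  have h2 : (⋂ n : ℕ, {z | (n : ℝ) < f z}) = ∅ := by
    ext z
    simp only [Set.mem_iInter, Set.mem_ofPred_eq, Set.mem_empty_iff_false, iff_false, not_forall,
      not_lt]
    obtain ⟨n, hn⟩ := exists_nat_ge (f z)
    exact ⟨n, hn⟩
  rw [h2, measure_empty] at h1
  obtain ⟨n, hn⟩ := ((ENNReal.tendsto_nhds_zero.1 h1) ε hε).exists
  exact ⟨n, hn⟩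

theorem cl_shX {C : ℝ} {v v' u : Vx} {p : XX} (h : Cl C (v + u) (v' + u) p) :
    Cl C v v' (shX u p) := by
  obtain ⟨⟨d, hd⟩, ⟨d', hd'⟩, X, hX1, hX2, hX3⟩ := h
  refine ⟨⟨d, ?_⟩, ⟨d', ?_⟩, shF u X, fun e he => ?_, ?_, ?_⟩
  · rw [wl_shX, sh_edg]; exact hd
  · rw [wl_shX, sh_edg]; exact hd'
  · rw [mem_shF] at he
    exact hX1 _ he
  · funext y
    rw [ind_shF, par_sh, hX2]
    unfold vx dl
    congr 1
    · rw [decide_eq_decide]
      exact add_left_inj u
    · rw [decide_eq_decide]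
      exact add_left_inj u
  · show |en (wt (sh u p.1)) (sh u p.2.1) (shF u X)| ≤ C
    rw [wt_sh, en_sh]
    exact hX3

theorem cl_le {Q : Measure XX} (hW : IsW lam Q) (C : ℝ) (v v' u : Vx) :
    Q {p | Cl C (v + u) (v' + u) p} ≤ Q {p | Cl C v v' p} := by
  rw [← (hW.inv u).measure_preimage
    (Pool.Agent.Helper63.MS.measurableSet_Cl C v v').nullMeasurableSet]
  exact measure_mono fun p hp => cl_shX hp

/-- the number of shifted pairs -/
theorem sum_pairs {Q : Measure XX} (hW : IsW lam Q) (C : ℝ) (u : Vx) (L r : ℕ) :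
    ∑ x ∈ trV u (box L), ∑ x' ∈ trV u (box L), ∑ a ∈ box r, ∑ a' ∈ box r,
      Q {p | Cl C (x + a) (x' + a') p} ≤
    ((box r).card : ENNReal) ^ 2 * ∑ v ∈ box (L + r), ∑ v' ∈ box (L + r), Q {p | Cl C v v' p} := by
  classical
  have hinj : Function.Injective (fun y : Vx => y + u) := add_left_injective u
  unfold trV
  rw [Finset.sum_image fun _ _ _ _ h => hinj h]
  simp only [Finset.sum_image fun (_ : Vx) (_ : _) (_ : Vx) (_ : _) h => hinj h]
  have h1 : ∀ a ∈ box r, ∀ a' ∈ box r, ∑ x ∈ box L, ∑ x' ∈ box L,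
      Q {p | Cl C (x + u + a) (x' + u + a') p} ≤
        ∑ v ∈ box (L + r), ∑ v' ∈ box (L + r), Q {p | Cl C v v' p} := by
    intro a ha a' ha'
    have hmem : ∀ b ∈ box r, ∀ x ∈ box L, x + b ∈ box (L + r) := by
      intro b hb x hx
      rw [Dx.mem_box] at hb hx ⊢
      simp only [Prod.fst_add, Prod.snd_add]
      push_cast
      omega
    have h2 : ∀ F : Vx → ENNReal, ∀ b ∈ box r, ∑ x ∈ box L, F (x + b) ≤ ∑ v ∈ box (L + r), F v := by
      intro F b hb
      rw [← Finset.sum_image (f := F) (g := fun x : Vx => x + b)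
        fun _ _ _ _ h => add_left_injective b h]
      refine Finset.sum_le_sum_of_subset fun y hy => ?_
      obtain ⟨x, hx, rfl⟩ := Finset.mem_image.1 hy
      exact hmem b hb x hx
    calc ∑ x ∈ box L, ∑ x' ∈ box L, Q {p | Cl C (x + u + a) (x' + u + a') p}
        ≤ ∑ x ∈ box L, ∑ x' ∈ box L, Q {p | Cl C (x + a) (x' + a') p} := by
          refine Finset.sum_le_sum fun x _ => Finset.sum_le_sum fun x' _ => ?_
          have h3 := cl_le hW C (x + a) (x' + a') u
          rwa [add_right_comm x a u, add_right_comm x' a' u] at h3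
      _ ≤ ∑ x ∈ box L, ∑ v' ∈ box (L + r), Q {p | Cl C (x + a) v' p} :=
          Finset.sum_le_sum fun x _ => h2 (fun v' => Q {p | Cl C (x + a) v' p}) a' ha'
      _ ≤ ∑ v ∈ box (L + r), ∑ v' ∈ box (L + r), Q {p | Cl C v v' p} :=
          h2 (fun v => ∑ v' ∈ box (L + r), Q {p | Cl C v v' p}) a ha
  have h4 : ∑ x ∈ box L, ∑ x' ∈ box L, ∑ a ∈ box r, ∑ a' ∈ box r,
      Q {p | Cl C (x + u + a) (x' + u + a') p} =
        ∑ a ∈ box r, ∑ a' ∈ box r, ∑ x ∈ box L, ∑ x' ∈ box L,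
          Q {p | Cl C (x + u + a) (x' + u + a') p} := by
    have e1 : ∀ x ∈ box L, ∑ x' ∈ box L, ∑ a ∈ box r, ∑ a' ∈ box r,
        Q {p | Cl C (x + u + a) (x' + u + a') p} = ∑ a ∈ box r, ∑ x' ∈ box L, ∑ a' ∈ box r,
          Q {p | Cl C (x + u + a) (x' + u + a') p} := fun x _ => Finset.sum_comm
    rw [Finset.sum_congr rfl e1, Finset.sum_comm]
    refine Finset.sum_congr rfl fun a _ => ?_
    have e2 : ∀ x ∈ box L, ∑ x' ∈ box L, ∑ a' ∈ box r,
        Q {p | Cl C (x + u + a) (x' + u + a') p} = ∑ a' ∈ box r, ∑ x' ∈ box L,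
          Q {p | Cl C (x + u + a) (x' + u + a') p} := fun x _ => Finset.sum_comm
    rw [Finset.sum_congr rfl e2, Finset.sum_comm]
  rw [h4]
  calc ∑ a ∈ box r, ∑ a' ∈ box r, ∑ x ∈ box L, ∑ x' ∈ box L,
        Q {p | Cl C (x + u + a) (x' + u + a') p}
      ≤ ∑ _a ∈ box r, ∑ _a' ∈ box r,
        ∑ v ∈ box (L + r), ∑ v' ∈ box (L + r), Q {p | Cl C v v' p} :=
        Finset.sum_le_sum fun a ha => Finset.sum_le_sum fun a' ha' => h1 a ha a' ha'
    _ = ((box r).card : ENNReal) ^ 2 *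
        ∑ v ∈ box (L + r), ∑ v' ∈ box (L + r), Q {p | Cl C v v' p} := by
        rw [Finset.sum_const, Finset.sum_const, nsmul_eq_mul, nsmul_eq_mul, pow_two, mul_assoc]

theorem rp_aO (g : Gm) (z : Om) (i : Fin 3) : rp (aO g z) i = aV g (rp z i) := by
  fin_cases i <;> rfl

theorem sd_empty {α : Type*} [DecidableEq α] (s : Finset α) : s ∆ ∅ = s := by
  ext a
  simp [Finset.mem_symmDiff]

theorem empty_sd {α : Type*} [DecidableEq α] (s : Finset α) : ∅ ∆ s = s := by
  ext a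
  simp [Finset.mem_symmDiff]

theorem gad_g0 (g : Gm) : gad g g0 = g := by
  unfold gad g0
  simp only [sd_empty]

theorem gad_tg (g : Gm) (D : Finset Ed) : gad g (tg g0 D) = tg g D := by
  unfold gad tg g0
  simp only [sd_empty, empty_sd]

/-- the event that the toggled state looks like the other state near `u` -/
def EE (i j : Fin 3) (D F : Finset Ed) : Set Om :=
  {z | z ∈ Df i j g0 ∧ ∀ e ∈ F, uu (rp z i) (tg g0 D) e = uu (rp z j) g0 e}

/-- one term of the second moment -/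
theorem pair_bound (hl : Wgt lam) (hR : IsR lam κ R) {i j : Fin 3} (hij : i ≠ j) {D F : Finset Ed} {u x x' : Vx}
    {M K : ℝ} {r Lb Ls : ℕ} {η : ENNReal}
    (hnear : ∀ y, QQ R {p | ¬ Nr M r y p} ≤ η)
    (hsgm : QQ R {p | ¬ Sgm Lb Ls (shX u p)} ≤ η)
    (hK : R {z | K < tw (ww g0 z.1) D} ≤ η)
    (hF : ∀ e : Ed, e.1 - u ∈ box Ls → e ∈ F)
    (hxb : ∀ a ∈ box r, x + a - u ∈ box Lb) (hxb' : ∀ a ∈ box r, x' + a - u ∈ box Lb) :
    R (EE i j D F ∩ aO (txy x x') ⁻¹' EE i j D F) ≤ 7 * η +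
      ∑ a ∈ box r, ∑ a' ∈ box r, QQ R {p | Cl (4 * M + 4 * K) (x + a) (x' + a') p} := by
  classical
  obtain ⟨P, hP⟩ := exists_path x x'
  have hg1 : txy x x' = tg g0 P := by
    unfold txy tg g0
    rw [bdy_eq hP]
    simp only [empty_sd]
  have hN0 : R {z | ¬ (Ok z.1 (rp z i) ∧ Ok z.1 (rp z j))} = 0 := by
    have h1 : ∀ᵐ z ∂(R), Ok z.1 (rp z i) ∧ Ok z.1 (rp z j) := by
      filter_upwards [hR.ok] with z hz using ⟨hz i, hz j⟩
    exact h1
  have hA : ∀ (g : Gm) (y : Vx), R {z | z ∈ Df i j g ∧ pr i j g z ∈ {p | ¬ Nr M r y p}} ≤ η :=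
    fun g y => (le_QQ hl hR hij g _).trans (hnear y)
  have hS : ∀ g : Gm, R {z | z ∈ Df i j g ∧ pr i j g z ∈ {p | ¬ Sgm Lb Ls (shX u p)}} ≤ η :=
    fun g => (le_QQ hl hR hij g _).trans hsgm
  have hC : ∀ a a' : Vx, R {z | z ∈ Df i j g0 ∧
      pr i j g0 z ∈ {p | Cl (4 * M + 4 * K) (x + a) (x' + a') p}} ≤
        QQ R {p | Cl (4 * M + 4 * K) (x + a) (x' + a') p} := fun a a' => le_QQ hl hR hij g0 _
  have hsub : EE i j D F ∩ aO (txy x x') ⁻¹' EE i j D F ⊆
      {z | ¬ (Ok z.1 (rp z i) ∧ Ok z.1 (rp z j))} ∪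
      ({z | z ∈ Df i j g0 ∧ pr i j g0 z ∈ {p | ¬ Nr M r x p}} ∪
      ({z | z ∈ Df i j g0 ∧ pr i j g0 z ∈ {p | ¬ Nr M r x' p}} ∪
      ({z | z ∈ Df i j (tg g0 P) ∧ pr i j (tg g0 P) z ∈ {p | ¬ Nr M r x p}} ∪
      ({z | z ∈ Df i j (tg g0 P) ∧ pr i j (tg g0 P) z ∈ {p | ¬ Nr M r x' p}} ∪
      ({z | z ∈ Df i j g0 ∧ pr i j g0 z ∈ {p | ¬ Sgm Lb Ls (shX u p)}} ∪
      ({z | z ∈ Df i j (tg g0 P) ∧ pr i j (tg g0 P) z ∈ {p | ¬ Sgm Lb Ls (shX u p)}} ∪
      ({z | K < tw (ww g0 z.1) D} ∪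
      ⋃ a ∈ box r, ⋃ a' ∈ box r, {z | z ∈ Df i j g0 ∧
        pr i j g0 z ∈ {p | Cl (4 * M + 4 * K) (x + a) (x' + a') p}}))))))) := by
    rintro z ⟨hz1, hz2⟩
    by_contra hcon
    simp only [Set.mem_union, not_or] at hcon
    obtain ⟨c0, c1, c2, c3, c4, c5, c6, c7, c8⟩ := hcon
    rw [Set.mem_ofPred_eq, not_not] at c0
    obtain ⟨h, h'⟩ := c0
    have hd1 : z ∈ Df i j g0 := hz1.1
    have hd2 : z ∈ Df i j (tg g0 P) := by
      have h1 : uu (rp (aO (txy x x') z) i) g0 ≠ uu (rp (aO (txy x x') z) j) g0 := hz2.1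
      rw [rp_aO, rp_aO] at h1
      have h2 : ∀ s : Vl, uu (aV (txy x x') s) g0 = uu s (tg g0 P) := by
        intro s
        show uu s (gad (txy x x') g0) = _
        rw [gad_g0, hg1]
      rw [h2, h2] at h1
      exact h1
    have hag : ∀ e : Ed, e.1 - u ∈ box Ls → uu (rp z i) (tg g0 D) e = uu (rp z j) g0 e :=
      fun e he => hz1.2 e (hF e he)
    have hag' : ∀ e : Ed, e.1 - u ∈ box Ls →
        uu (rp z i) (tg (tg g0 P) D) e = uu (rp z j) (tg g0 P) e := by
      intro e he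
      have h1 := hz2.2 e (hF e he)
      rw [rp_aO, rp_aO] at h1
      have h2 : ∀ s : Vl, uu (aV (txy x x') s) g0 = uu s (tg g0 P) := by
        intro s
        show uu s (gad (txy x x') g0) = _
        rw [gad_g0, hg1]
      have h3 : ∀ s : Vl, uu (aV (txy x x') s) (tg g0 D) = uu s (tg (tg g0 P) D) := by
        intro s
        show uu s (gad (txy x x') (tg g0 D)) = _
        rw [gad_tg, hg1]
      rw [h2, h3] at h1
      exact h1
    have n1 : Nr M r x (pr i j g0 z) := by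
      by_contra hn; exact c1 ⟨hd1, hn⟩
    have n2 : Nr M r x' (pr i j g0 z) := by
      by_contra hn; exact c2 ⟨hd1, hn⟩
    have n3 : Nr M r x (pr i j (tg g0 P) z) := by
      by_contra hn; exact c3 ⟨hd2, hn⟩
    have n4 : Nr M r x' (pr i j (tg g0 P) z) := by
      by_contra hn; exact c4 ⟨hd2, hn⟩
    have n5 : Sgm Lb Ls (shX u (pr i j g0 z)) := by
      by_contra hn; exact c5 ⟨hd1, hn⟩
    have n6 : Sgm Lb Ls (shX u (pr i j (tg g0 P) z)) := by
      by_contra hn; exact c6 ⟨hd2, hn⟩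
    have n7 : tw (ww g0 z.1) D ≤ K := not_lt.1 c7
    obtain ⟨a, ha, a', ha', hcl⟩ := key h h' g0 hP n1 n2 n5 hag n3 n4 n6 hag' n7 hxb hxb'
    apply c8
    simp only [Set.mem_iUnion]
    exact ⟨a, ha, a', ha', hd1, hcl⟩
  refine (measure_mono hsub).trans ?_
  have hU : R (⋃ a ∈ box r, ⋃ a' ∈ box r, {z | z ∈ Df i j g0 ∧
      pr i j g0 z ∈ {p | Cl (4 * M + 4 * K) (x + a) (x' + a') p}}) ≤
      ∑ a ∈ box r, ∑ a' ∈ box r, QQ R {p | Cl (4 * M + 4 * K) (x + a) (x' + a') p} :=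
    (measure_biUnion_finset_le _ _).trans (Finset.sum_le_sum fun a _ =>
      (measure_biUnion_finset_le _ _).trans (Finset.sum_le_sum fun a' _ => hC a a'))
  calc _ ≤ 0 + (η + (η + (η + (η + (η + (η + (η +
        ∑ a ∈ box r, ∑ a' ∈ box r,
          QQ R {p | Cl (4 * M + 4 * K) (x + a) (x' + a') p}))))))) := by
        refine (measure_union_le _ _).trans (add_le_add hN0.le ?_)
        refine (measure_union_le _ _).trans (add_le_add (hA _ _) ?_)
        refine (measure_union_le _ _).trans (add_le_add (hA _ _) ?_)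
        refine (measure_union_le _ _).trans (add_le_add (hA _ _) ?_)
        refine (measure_union_le _ _).trans (add_le_add (hA _ _) ?_)
        refine (measure_union_le _ _).trans (add_le_add (hS _) ?_)
        refine (measure_union_le _ _).trans (add_le_add (hS _) ?_)
        exact (measure_union_le _ _).trans (add_le_add hK hU)
    _ = _ := by ring

theorem measurableSet_EE (i j : Fin 3) (D F : Finset Ed) : MeasurableSet (EE i j D F) := by
  have h1 : ∀ (k : Fin 3) (g : Gm) (e : Ed), Measurable fun z : Om => uu (rp z k) g e :=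
    fun k g e => by
      have h0 : Measurable fun z : Om => (pr k k g z).2.1 :=
        measurable_fst.comp (measurable_snd.comp (Pool.Agent.Helper63.MS.measurable_pr k k g))
      exact (measurable_pi_apply e).comp h0
  have h2 : EE i j D F = Df i j g0 ∩
      ⋂ e ∈ F, {z : Om | uu (rp z i) (tg g0 D) e = uu (rp z j) g0 e} := by
    ext z
    simp only [EE, Set.mem_ofPred_eq, Set.mem_inter_iff, Set.mem_iInter]
  rw [h2]
  exact (measurableSet_Df i j g0).inter
    (Finset.measurableSet_biInter _ fun e _ => measurableSet_eq_fun (h1 i _ e) (h1 j _ e))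

theorem mem_ebox_of {Ls L' : ℕ} (h : Ls + 1 ≤ L') {u : Vx} {e : Ed} (he : e.1 - u ∈ box Ls) :
    e ∈ trE u (ebox L') := by
  classical
  unfold trE
  rw [Finset.mem_image]
  refine ⟨(e.1 - u, e.2), ?_, ?_⟩
  · unfold ebox
    rw [Finset.mem_filter, Finset.mem_product]
    rw [Dx.mem_box] at he
    refine ⟨⟨?_, Finset.mem_univ _⟩, ?_⟩
    · rw [Dx.mem_box]
      have : (Ls : ℤ) + 1 ≤ L' := by exact_mod_cast h
      simp only
      omega
    · have : (Ls : ℤ) + 1 ≤ L' := by exact_mod_cast h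
      unfold db
      simp only
      split
      · rw [Dx.mem_box]
        simp only
        omega
      · rw [Dx.mem_box]
        simp only
        omega
  · simp

theorem main (hl : Wgt lam) (hR : IsR lam κ R)
    (hW : IsW lam (QQ R)) (D : Finset Ed) {ε : ℝ} (hε : 0 < ε) :
    ∃ L : ℕ, ∀ L' ≥ L, ∀ u : Vx, ∀ i j : Fin 3, i ≠ j →
      R (EE i j D (trE u (ebox L'))) ≤ ENNReal.ofReal ε := by
  classical
  have : IsProbabilityMeasure R := hR.prob
  have hη : 0 < ε ^ 2 / 16 := by positivity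
  set η : ENNReal := ENNReal.ofReal (ε ^ 2 / 16) with hηdef
  have hη0 : 0 < η := ENNReal.ofReal_pos.2 hη
  obtain ⟨M, r, -, hnear⟩ := w_near hl hW hη
  have hmf : Measurable fun z : Om => tw (ww g0 z.1) D :=
    (measurable_tw D).comp (measurable_fst.comp (Pool.Agent.Helper63.MS.measurable_pr 0 0 g0))
  obtain ⟨K, hK⟩ := exists_K (R := R) hmf hη0
  have hr0 : (0 : ℝ) < ((box r).card : ℝ) := by
    rw [Dx.card_box]
    positivity
  have hθ : 0 < ε ^ 2 / 16 / (16 * ((box r).card : ℝ) ^ 2) := by positivity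
  obtain ⟨L0, hL0⟩ := w_pairs hl hW (4 * M + 4 * K) hθ
  set L1 : ℕ := max L0 r with hL1
  obtain ⟨Ls, hLs⟩ := w_sgm hl hW (L1 + r) hη
  refine ⟨Ls + 1, fun L' hL' u i j hij => ?_⟩
  -- the second moment
  set E : Set Om := EE i j D (trE u (ebox L')) with hE
  have hbf := bf hl hR (measurableSet_EE i j D (trE u (ebox L'))) (trV u (box L1))
  rw [← hE] at hbf
  have hcard : (trV u (box L1)).card = (box L1).card :=
    Finset.card_image_of_injective _ (add_left_injective u)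
  rw [hcard] at hbf
  have hxb : ∀ x ∈ trV u (box L1), ∀ a ∈ box r, x + a - u ∈ box (L1 + r) := by
    intro x hx a ha
    obtain ⟨y, hy, rfl⟩ := Finset.mem_image.1 hx
    rw [Dx.mem_box] at hy ha ⊢
    simp only [Prod.fst_add, Prod.snd_add, Prod.fst_sub, Prod.snd_sub]
    push_cast
    omega
  have hterm : ∀ x ∈ trV u (box L1), ∀ x' ∈ trV u (box L1),
      R (E ∩ aO (txy x x') ⁻¹' E) ≤ 7 * η +
        ∑ a ∈ box r, ∑ a' ∈ box r, QQ R {p | Cl (4 * M + 4 * K) (x + a) (x' + a') p} :=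
    fun x hx x' hx' => pair_bound hl hR hij hnear (hLs Ls le_rfl u) hK
      (fun e he => mem_ebox_of hL' he) (hxb x hx) (hxb x' hx')
  have hsum : ∑ x ∈ trV u (box L1), ∑ x' ∈ trV u (box L1), R (E ∩ aO (txy x x') ⁻¹' E) ≤
      8 * η * ((box L1).card : ENNReal) ^ 2 := by
    calc ∑ x ∈ trV u (box L1), ∑ x' ∈ trV u (box L1), R (E ∩ aO (txy x x') ⁻¹' E)
        ≤ ∑ x ∈ trV u (box L1), ∑ x' ∈ trV u (box L1), (7 * η +
          ∑ a ∈ box r, ∑ a' ∈ box r, QQ R {p | Cl (4 * M + 4 * K) (x + a) (x' + a') p}) :=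
          Finset.sum_le_sum fun x hx => Finset.sum_le_sum fun x' hx' => hterm x hx x' hx'
      _ = 7 * η * ((box L1).card : ENNReal) ^ 2 +
          ∑ x ∈ trV u (box L1), ∑ x' ∈ trV u (box L1), ∑ a ∈ box r, ∑ a' ∈ box r,
            QQ R {p | Cl (4 * M + 4 * K) (x + a) (x' + a') p} := by
          simp only [Finset.sum_add_distrib, Finset.sum_const, nsmul_eq_mul, hcard]
          ring
      _ ≤ 7 * η * ((box L1).card : ENNReal) ^ 2 + ((box r).card : ENNReal) ^ 2 *
          ∑ v ∈ box (L1 + r), ∑ v' ∈ box (L1 + r), QQ R {p | Cl (4 * M + 4 * K) v v' p} := by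
          gcongr
          exact sum_pairs hW _ u L1 r
      _ ≤ 7 * η * ((box L1).card : ENNReal) ^ 2 + ((box r).card : ENNReal) ^ 2 *
          (ENNReal.ofReal (ε ^ 2 / 16 / (16 * ((box r).card : ℝ) ^ 2)) *
            ((box (L1 + r)).card : ENNReal) ^ 2) := by
          gcongr
          exact hL0 (L1 + r) ((le_max_left _ _).trans (Nat.le_add_right _ _))
      _ ≤ 7 * η * ((box L1).card : ENNReal) ^ 2 + η * ((box L1).card : ENNReal) ^ 2 := by
          refine add_le_add le_rfl ?_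
          have h1 : ((box (L1 + r)).card : ENNReal) ≤ 4 * ((box L1).card : ENNReal) := by
            have h2 : (box (L1 + r)).card ≤ 4 * (box L1).card := by
              rw [Dx.card_box, Dx.card_box]
              have h3 : r ≤ L1 := le_max_right _ _
              nlinarith
            exact_mod_cast h2
          calc ((box r).card : ENNReal) ^ 2 *
              (ENNReal.ofReal (ε ^ 2 / 16 / (16 * ((box r).card : ℝ) ^ 2)) *
                ((box (L1 + r)).card : ENNReal) ^ 2)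
              ≤ ((box r).card : ENNReal) ^ 2 *
              (ENNReal.ofReal (ε ^ 2 / 16 / (16 * ((box r).card : ℝ) ^ 2)) *
                (4 * ((box L1).card : ENNReal)) ^ 2) := by gcongr
            _ = (((box r).card : ENNReal) ^ 2 * 16 *
              ENNReal.ofReal (ε ^ 2 / 16 / (16 * ((box r).card : ℝ) ^ 2))) *
                ((box L1).card : ENNReal) ^ 2 := by ring
            _ = η * ((box L1).card : ENNReal) ^ 2 := by
              congr 1
              have h4 : ((box r).card : ENNReal) ^ 2 * 16 =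
                  ENNReal.ofReal (16 * ((box r).card : ℝ) ^ 2) := by
                rw [ENNReal.ofReal_mul (by norm_num), ENNReal.ofReal_pow hr0.le,
                  ENNReal.ofReal_natCast, mul_comm]
                congr 1
                simp
              rw [h4, ← ENNReal.ofReal_mul (by positivity), hηdef]
              congr 1
              field_simp
      _ = 8 * η * ((box L1).card : ENNReal) ^ 2 := by ring
  have hfin : (R E) ^ 2 * ((box L1).card : ENNReal) ^ 2 ≤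
      8 * η * ((box L1).card : ENNReal) ^ 2 := hbf.trans hsum
  have hc0 : ((box L1).card : ENNReal) ^ 2 ≠ 0 := by
    have : (box L1).card ≠ 0 := by
      rw [Dx.card_box]
      positivity
    exact pow_ne_zero _ (by exact_mod_cast this)
  have hc1 : ((box L1).card : ENNReal) ^ 2 ≠ ⊤ := ENNReal.pow_ne_top (ENNReal.natCast_ne_top _)
  have h5 : (R E) ^ 2 ≤ 8 * η := (ENNReal.mul_le_mul_iff_left hc0 hc1).1 hfin
  have h6 : 8 * η ≤ (ENNReal.ofReal ε) ^ 2 := by
    rw [hηdef, ← ENNReal.ofReal_pow hε.le]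
    have h7 : (8 : ENNReal) = ENNReal.ofReal 8 := by simp
    rw [h7, ← ENNReal.ofReal_mul (by norm_num)]
    apply ENNReal.ofReal_le_ofReal
    nlinarith
  by_contra hcon
  rw [not_le] at hcon
  exact absurd (h5.trans h6) (not_le.2 ((ENNReal.pow_lt_pow_left_iff two_ne_zero).2 hcon))

end NoSw

/-- `no_switch` of the skeleton -/
theorem no_switch_h60 {lam : Measure ℝ} {κ : Kernel WT Rs} {R : Measure Om} (hl : Wgt lam)
    (hR : IsR lam κ R)
    (hW : IsW lam (QQ R)) (D : Finset Ed) {ε : ℝ} (hε : 0 < ε) :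
    ∃ L : ℕ, ∀ L' ≥ L, ∀ u : Vx, ∀ i j : Fin 3, i ≠ j →
      R {z | z ∈ Df i j g0 ∧ ∀ e ∈ trE u (ebox L'),
        uu (rp z i) (tg g0 D) e = uu (rp z j) g0 e} ≤ ENNReal.ofReal ε :=
  NoSw.main hl hR hW D hε

end Pool.Agent.Helper61.MM
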