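import Pool.Agent.Helper60.MW.Walk

set_option autoImplicit false

/-!
# Laws of pairs of replicas (`IsW`): no eigenfunctions, no tightness (CL)

Adaptation of Pool/Agent/Helper99/MS/Eig.lean (helper99).
-/

namespace Pool.Agent.Helper61.MM

open Pool.Agent.Helper60.TJ Pool.Agent.Helper60.TJ.G1
open scoped symmDiff ENNReal
open MeasureTheory Filter Topology

variable {lam : Measure ℝ} {Q : Measure XX}

namespace Clx

/-- the survival event: the new weight is closer to the old one than the flexibility -/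
def Sv (e : Ed) : Set ((XX × ℝ) × ℝ) := {z | |z.2 - z.1.1.1 e| < z.1.2}

/-- the space of one resampled weight -/
def Sdw (d : Dir) : Set ((XX × ℝ) × ℝ) := {z | wl z.1.1 (edg 0 d) = true} ∩ Sv (edg 0 d)

theorem measurable_up (e : Ed) : Measurable fun z : (XX × ℝ) × ℝ => updX e (z.1.1, z.2) :=
  (measurable_updX e).comp ((measurable_fst.comp measurable_fst).prodMk measurable_snd)

theorem law1 [IsProbabilityMeasure lam] {r : Measure (XX × ℝ)} [SFinite r]
    (hr : r.map Prod.fst = Q) (d : Dir) :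
    ((r.prod lam).restrict (Sdw d)).map (fun z : (XX × ℝ) × ℝ => ((z.1.1, d) : YY)) ≤ nuM Q := by
  refine le_trans ?_ (nu_le Q d)
  rw [Measure.le_iff]
  intro s hs
  have m1 : Measurable (fun z : (XX × ℝ) × ℝ => ((z.1.1, d) : YY)) :=
    (measurable_fst.comp measurable_fst).prodMk measurable_const
  have m2 : Measurable (fun p : XX => ((p, d) : YY)) := measurable_id.prodMk measurable_const
  have hw : MeasurableSet {p : XX | wl p (edg 0 d) = true} :=
    measurableSet_eq_fun ((measurable_pi_apply (edg 0 d)).comp measurable_wl) measurable_const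
  rw [Measure.map_apply m1 hs, Measure.map_apply m2 hs, Measure.restrict_apply (m1 hs),
    Measure.restrict_apply (m2 hs)]
  have h1 : (fun z : (XX × ℝ) × ℝ => ((z.1.1, d) : YY)) ⁻¹' s ∩ Sdw d ⊆
      Prod.fst ⁻¹' (Prod.fst ⁻¹' ((fun p : XX => ((p, d) : YY)) ⁻¹' s ∩
        {p | wl p (edg 0 d) = true})) :=
    fun q hq => ⟨hq.1, hq.2.1⟩
  refine (measure_mono h1).trans ?_
  have m3 := (m2 hs).inter hw
  rw [measurePreserving_fst.measure_preimage (measurable_fst m3).nullMeasurableSet, ← hr,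
    Measure.map_apply measurable_fst m3]

theorem law2 {r : Measure (XX × ℝ)} {d : Dir}
    (hres : ((r.prod lam).restrict (Sv (edg 0 d))).map (fun z => updX (edg 0 d) (z.1.1, z.2)) ≤ Q) :
    ((r.prod lam).restrict (Sdw d)).map
      (fun z : (XX × ℝ) × ℝ => ((updX (edg 0 d) (z.1.1, z.2), d) : YY)) ≤ nuM Q := by
  refine le_trans ?_ (nu_le Q d)
  rw [Measure.le_iff]
  intro s hs
  have m1 : Measurable (fun z : (XX × ℝ) × ℝ => ((updX (edg 0 d) (z.1.1, z.2), d) : YY)) :=
    (measurable_up _).prodMk measurable_const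
  have m2 : Measurable (fun p : XX => ((p, d) : YY)) := measurable_id.prodMk measurable_const
  have hw : MeasurableSet {p : XX | wl p (edg 0 d) = true} :=
    measurableSet_eq_fun ((measurable_pi_apply (edg 0 d)).comp measurable_wl) measurable_const
  rw [Measure.map_apply m1 hs, Measure.map_apply m2 hs, Measure.restrict_apply (m1 hs),
    Measure.restrict_apply (m2 hs)]
  have h1 : (fun z : (XX × ℝ) × ℝ => ((updX (edg 0 d) (z.1.1, z.2), d) : YY)) ⁻¹' s ∩ Sdw d ⊆
      (fun z : (XX × ℝ) × ℝ => updX (edg 0 d) (z.1.1, z.2)) ⁻¹'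
        ((fun p : XX => ((p, d) : YY)) ⁻¹' s ∩ {p | wl p (edg 0 d) = true}) ∩
        Sv (edg 0 d) :=
    fun q hq => ⟨⟨hq.1, hq.2.1⟩, hq.2.2⟩
  refine (measure_mono h1).trans ?_
  rw [← Measure.restrict_apply (measurable_up _ ((m2 hs).inter hw)),
    ← Measure.map_apply (measurable_up _) ((m2 hs).inter hw)]
  exact hres _

end Clx

open Clx

theorem IsW.supp_ae [IsProbabilityMeasure lam] (hQ : IsW lam Q) (e : Ed) :
    ∀ᵐ p ∂Q, p.1 e ∈ lam.support := by
  have h1 : PP lam {J | J e ∉ lam.support} = 0 := by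
    have h2 := (measurePreserving_eval_infinitePi (fun _ : Ed => lam) e).measure_preimage
      (s := lam.supportᶜ) Measure.isOpen_compl_support.measurableSet.nullMeasurableSet
    have h3 : lam lam.supportᶜ = 0 := Measure.support_mem_ae
    rw [h3] at h2
    exact h2
  have h4 := hQ.fst_le {J | J e ∉ lam.support}
  rw [h1] at h4
  exact le_antisymm h4 zero_le

/-- **(NE)** no eigenfunctions -/
theorem IsW.no_eig (hl : Wgt lam) (hQ : IsW lam Q) {l : ℝ} (hl0 : l ≠ 0) {h : YY → ℂ}
    (hm : Measurable h) (hi : Integrable h (nuM Q))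
    (heq : ∀ᵐ y ∂(nuM Q), Complex.exp (l * xv y * Complex.I) * h (Th y) = h y) :
    ∀ᵐ y ∂(nuM Q), h y = 0 := by
  have : IsProbabilityMeasure lam := hl.prob
  have : IsFiniteMeasure (nuM Q) := ⟨hQ.nu_lt⟩
  have : IsFiniteMeasure Q := hQ.fin
  have hTh := hQ.mp_Th
  have hrv := hQ.mp_rv
  have hGY := hQ.ae_GY
  have hpos := fun v => pos_tend hGY v
  have key : ∀ d : Dir, ∀ᵐ p ∂Q, wl p (edg 0 d) = true → h (p, d) = 0 := by
    intro d
    obtain ⟨r, hr1, hr2, hr3⟩ := hQ.res (edg 0 d)
    have : IsFiniteMeasure r := by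
      constructor
      have h1 : r Set.univ = Q Set.univ := by
        rw [← hr1, Measure.map_apply measurable_fst MeasurableSet.univ, Set.preimage_univ]
      rw [h1]
      exact measure_lt_top _ _
    have mA : Measurable (fun z : (XX × ℝ) × ℝ => ((z.1.1, d) : YY)) :=
      (measurable_fst.comp measurable_fst).prodMk measurable_const
    have mB : Measurable (fun z : (XX × ℝ) × ℝ => ((updX (edg 0 d) (z.1.1, z.2), d) : YY)) :=
      (measurable_up _).prodMk measurable_const
    have tw : ∀ z : (XX × ℝ) × ℝ, Tw (edg 0 d) (z.1.1, d) (updX (edg 0 d) (z.1.1, z.2), d) :=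
      fun z => ⟨rfl, rfl, fun f hf => upd_ne _ hf _⟩
    have l2 := law2 (lam := lam) (r := r) hr3
    have c1 : Cpl ((r.prod lam).restrict (Sdw d)) (nuM Q) (edg 0 d)
        (fun z : (XX × ℝ) × ℝ => ((z.1.1, d) : YY))
        (fun z => (updX (edg 0 d) (z.1.1, z.2), d)) :=
      ⟨mA, mB, law1 hr1 d, l2, Eventually.of_forall tw⟩
    have c2 : Cpl ((r.prod lam).restrict (Sdw d)) (nuM Q) (edg 0 d)
        (fun z : (XX × ℝ) × ℝ => rv ((z.1.1, d) : YY))
        (fun z => rv (updX (edg 0 d) (z.1.1, z.2), d)) := by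
      refine ⟨measurable_rv.comp mA, measurable_rv.comp mB, ?_, ?_,
        Eventually.of_forall fun q => (tw q).rv⟩
      · have h1 := Measure.map_mono (law1 (lam := lam) hr1 d) measurable_rv
        rw [Measure.map_map measurable_rv mA, hrv.map_eq] at h1
        exact h1
      · have h1 := Measure.map_mono l2 measurable_rv
        rw [Measure.map_map measurable_rv mB, hrv.map_eq] at h1
        exact h1
    have gA : ∀ᵐ q ∂((r.prod lam).restrict (Sdw d)), GY (q.1.1, d) := law_ae c1.mA c1.lA hGY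
    have gB : ∀ᵐ q ∂((r.prod lam).restrict (Sdw d)), GY (updX (edg 0 d) (q.1.1, q.2), d) :=
      law_ae c1.mB c1.lB hGY
    have r1 := core c1 hTh hpos hm heq (gA.mono fun q hq n => wedge_ne hq n)
    have r2 := core c2 hTh hpos (hm.comp measurable_rv) (eig_rv hTh hrv hGY heq)
      (gA.mono fun q hq n => wedge_rv_ne hq (n + 1))
    have r3 : ∀ᵐ q ∂((r.prod lam).restrict (Sdw d)), h (q.1.1, d) =
        Complex.exp (-(l * (xv (updX (edg 0 d) (q.1.1, q.2), d) - xv (q.1.1, d)) * Complex.I)) *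
          h (q.1.1, d) := by
      filter_upwards [r1, r2, gA, gB] with q h1 h2 g1 g2
      have e0 : xv (rv (updX (edg 0 d) (q.1.1, q.2), d)) = xv (rv (q.1.1, d)) :=
        (tw q).rv.xv 0 (wedge_rv_ne g1 0)
      simp only [Function.comp] at h2
      rw [e0, rv_rv g1, rv_rv g2, sub_self, mul_zero, zero_mul, neg_zero, Complex.exp_zero,
        one_mul] at h2
      rw [← h2] at h1
      exact h1
    have r4 := ae_imp_of_ae_restrict r3
    have r5 := Measure.ae_ae_of_ae_prod r4
    -- back to `Q`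
    have hgood : MeasurableSet {p : XX | wl p (edg 0 d) = true → h (p, d) = 0} := by
      have hw : MeasurableSet {p : XX | wl p (edg 0 d) = true} :=
        measurableSet_eq_fun ((measurable_pi_apply (edg 0 d)).comp measurable_wl) measurable_const
      have hz : MeasurableSet {p : XX | h (p, d) = 0} :=
        (hm.comp (measurable_id.prodMk measurable_const)) (measurableSet_singleton 0)
      have : {p : XX | wl p (edg 0 d) = true → h (p, d) = 0} =
          {p : XX | wl p (edg 0 d) = true}ᶜ ∪ {p : XX | h (p, d) = 0} := by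
        ext p
        simp only [Set.mem_ofPred_eq, Set.mem_union, Set.mem_compl_iff]
        tauto
      rw [this]
      exact hw.compl.union hz
    have hpr : ∀ᵐ q ∂r, (∀ e, 0 < q.1.1 e) ∧ q.1.1 (edg 0 d) ∈ lam.support := by
      have h1 : ∀ᵐ p ∂(r.map Prod.fst), (∀ e, 0 < p.1 e) ∧ p.1 (edg 0 d) ∈ lam.support := by
        rw [hr1]
        filter_upwards [hQ.pos, hQ.supp_ae (edg 0 d)] with p h2 h3 using ⟨h2, h3⟩
      exact ae_of_ae_map measurable_fst.aemeasurable h1
    rw [← hr1, ae_map_iff measurable_fst.aemeasurable hgood]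
    filter_upwards [r5, hr2, hpr] with q hp hδ hn hwl
    obtain ⟨hn, hs⟩ := hn
    by_contra hne
    have hJ : 0 < q.1.1 (edg 0 d) := hn _
    have hl' : 0 < |l| := abs_pos.2 hl0
    have hρ : 0 < min (min q.2 (q.1.1 (edg 0 d))) (2 * Real.pi / |l|) :=
      lt_min (lt_min hδ hJ) (by positivity)
    set ρ := min (min q.2 (q.1.1 (edg 0 d))) (2 * Real.pi / |l|) with hρdef
    have hball : 0 < lam (Metric.ball (q.1.1 (edg 0 d)) ρ) :=
      ((Measure.mem_support_iff_forall _).1 hs) _ (Metric.ball_mem_nhds _ hρ)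
    have hx0 : ∀ᵐ x ∂lam, x ≠ q.1.1 (edg 0 d) := by
      rw [ae_iff]
      simpa using hl.atl (q.1.1 (edg 0 d))
    have hbad : ∀ᵐ x ∂lam, x ∉ Metric.ball (q.1.1 (edg 0 d)) ρ := by
      filter_upwards [hp, hx0] with x hx hx0 hlt
      rw [Metric.mem_ball, Real.dist_eq] at hlt
      have l1 : |x - q.1.1 (edg 0 d)| < q.2 :=
        hlt.trans_le ((min_le_left _ _).trans (min_le_left _ _))
      have l2 : |x - q.1.1 (edg 0 d)| < q.1.1 (edg 0 d) :=
        hlt.trans_le ((min_le_left _ _).trans (min_le_right _ _))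
      have l3 : |x - q.1.1 (edg 0 d)| < 2 * Real.pi / |l| := hlt.trans_le (min_le_right _ _)
      have hmem : ((q, x) : (XX × ℝ) × ℝ) ∈ Sdw d := ⟨hwl, l1⟩
      have h1 := hx hmem
      have h2 : Complex.exp (-(l * (xv (updX (edg 0 d) (q.1, x), d) - xv (q.1, d)) * Complex.I))
          = 1 := by
        have h3 : (1 : ℂ) * h (q.1, d) =
            Complex.exp (-(l * (xv (updX (edg 0 d) (q.1, x), d) - xv (q.1, d)) * Complex.I)) *
              h (q.1, d) := by
          rw [one_mul]
          exact h1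
        exact (mul_right_cancel₀ hne h3).symm
      have h4 : xv (updX (edg 0 d) (q.1, x), d) - xv (q.1, d) =
          (|x| - |q.1.1 (edg 0 d)|) * sg (q.1.2.1 (edg 0 d)) := by
        have h5 : xv (updX (edg 0 d) (q.1, x), d) = |x| * sg (q.1.2.1 (edg 0 d)) := by
          show |upd q.1.1 (edg 0 d) x (edg 0 d)| * sg (q.1.2.1 (edg 0 d)) = _
          rw [upd_self]
        rw [h5]
        show |x| * sg (q.1.2.1 (edg 0 d)) - |q.1.1 (edg 0 d)| * sg (q.1.2.1 (edg 0 d)) = _
        ring
      have h6 : |(|x| - |q.1.1 (edg 0 d)|)| = |x - q.1.1 (edg 0 d)| := by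
        rw [abs_lt] at l2
        rw [abs_of_pos hJ, abs_of_pos (show 0 < x by linarith)]
      have h8 : |l * (xv (updX (edg 0 d) (q.1, x), d) - xv (q.1, d))| =
          |l| * |x - q.1.1 (edg 0 d)| := by
        rw [h4, abs_mul, abs_mul, abs_sg, mul_one, h6]
      have h9 : 0 < |x - q.1.1 (edg 0 d)| := abs_pos.2 (sub_ne_zero.2 hx0)
      refine exp_ne (t := l * (xv (updX (edg 0 d) (q.1, x), d) - xv (q.1, d))) ?_ ?_ ?_
      · rw [← abs_pos, h8]
        positivity
      · rw [h8]
        rw [lt_div_iff₀ hl'] at l3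
        linarith
      · rw [← h2]
        push_cast
        rfl
    have h10 : lam (Metric.ball (q.1.1 (edg 0 d)) ρ) = 0 := by
      have h11 := ae_iff.1 hbad
      simp only [not_not] at h11
      exact h11
    exact hball.ne' h10
  unfold nuM
  rw [ae_finsetSum_measure_iff]
  intro d _
  have m2 : Measurable (fun p : XX => ((p, d) : YY)) := measurable_id.prodMk measurable_const
  have hs0 : MeasurableSet {y : YY | h y = 0} := hm (measurableSet_singleton 0)
  rw [ae_map_iff m2.aemeasurable hs0]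
  have hw : MeasurableSet {p : XX | wl p (edg 0 d) = true} :=
    measurableSet_eq_fun ((measurable_pi_apply (edg 0 d)).comp measurable_wl) measurable_const
  rw [ae_restrict_iff' hw]
  exact key d

/-- **(CL)**: no tightness of the energies along the walls. -/
theorem IsW.cl (hl : Wgt lam) (hQ : IsW lam Q) (K : ℝ) :
    Tendsto (fun N : ℕ => (N : ℝ)⁻¹ * ∑ n ∈ Finset.range N,
      (nuM Q {y | |Vn n y| ≤ K}).toReal) atTop (𝓝 0) := by
  have : IsFiniteMeasure (nuM Q) := ⟨hQ.nu_lt⟩
  exact Pool.Agent.Helper60.TJ.cesaro hQ.mp_Th measurable_xv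
    (fun l hl0 h hm hi heq => hQ.no_eig hl hl0 hm hi heq) K

end Pool.Agent.Helper61.MM
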