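import Pool.Agent.Helper60.MW.Walk
import Pool.Agent.Helper60.TJ.E2
import Pool.Agent.Helper59.TJ.RecM

set_option autoImplicit false

/-! Recombination for laws of pairs of replicas (`IsW`). -/

namespace Pool.Agent.Helper61.MM

open MeasureTheory Pool.Agent.Helper60.TJ Pool.Agent.Helper60.TJ.E2
open scoped symmDiff

/-- recombination along the walls -/
theorem IsW.recomb {lam : Measure ℝ} {Q : Measure XX} (hl : Wgt lam) (hQ : IsW lam Q) :
    ∀ᵐ p ∂Q, ∀ A : Ed → Bool, Sat (wl p) A → bx p.2.1 A ∈ GS (wt p.1) (par p.2.1) := by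
  have : IsProbabilityMeasure lam := hl.prob
  refine Pool.Agent.Helper59.TJ.recomb_gs (μ := lam) (k := 1) ENNReal.one_ne_top (fun R => ?_)
    hQ.inv ?_
  · rw [one_mul]
    exact hQ.fst_le R
  · filter_upwards [hQ.gs] with p hp using ⟨hp.1, hp.2.1⟩

end Pool.Agent.Helper61.MM
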